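import Mathlib

namespace Pool.Agent.H.MP_5c31ca_lc
open Polynomial

theorem fin_ord {k : Type} [Field k] [Fintype k] (G : k[X]) (hG : G.Monic) {p : ℕ} (hp : 0 < p)
    (h : G ∣ X ^ p - 1) : ∃ m, 0 < m ∧ m ≤ Fintype.card k ^ G.natDegree ∧ G ∣ X ^ m - 1 := by
  classical
  let pb := AdjoinRoot.powerBasis' hG
  have : Module.Finite k (AdjoinRoot G) := pb.finite
  have : Finite (AdjoinRoot G) := Module.finite_of_finite k
  let _i : Fintype (AdjoinRoot G) := Fintype.ofFinite _
  have hc : Fintype.card (AdjoinRoot G) = Fintype.card k ^ G.natDegree := by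
    rw [Module.card_eq_pow_finrank (K := k), pb.finrank]; rfl
  have key : ∀ m : ℕ, G ∣ X ^ m - 1 ↔ AdjoinRoot.root G ^ m = 1 := by
    intro m
    rw [← AdjoinRoot.mk_eq_zero, map_sub, map_pow, AdjoinRoot.mk_X, map_one, sub_eq_zero]
  have hf : IsOfFinOrder (AdjoinRoot.root G) := isOfFinOrder_iff_pow_eq_one.2 ⟨p, hp, (key p).1 h⟩
  exact ⟨orderOf (AdjoinRoot.root G), hf.orderOf_pos, hc ▸ orderOf_le_card_univ,
    (key _).2 (pow_orderOf_eq_one _)⟩

theorem desc {k : Type} [Field k] (G : (RatFunc k)[X]) (hG : G.Monic) {p : ℕ} (hp : 0 < p)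
    (h : G ∣ X ^ p - 1) : ∃ G0 : k[X], G0.map (algebraMap k (RatFunc k)) = G ∧
      G0.natDegree = G.natDegree ∧ G0.Monic := by
  refine lifts_and_natDegree_eq_and_monic ?_ hG
  rw [lifts_iff_coeff_lifts]
  intro i
  have h1 : IsIntegral k (G.coeff i) := isIntegral_coeff_of_dvd (X ^ p - C 1 : k[X]) G
    (monic_X_pow_sub_C _ hp.ne') hG (by simpa using h) i
  by_contra hc
  refine RatFunc.transcendental_of_ne_C (G.coeff i) ?_ h1.isAlgebraic
  rintro ⟨c, hc'⟩
  exact hc ⟨c, hc'.symm⟩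

theorem alg {k : Type} [Field k] [Fintype k] {p q : ℕ} (hp : 0 < p) (g : (RatFunc k)[X])
    (hg : g.Monic) (he : 0 < g.natDegree) (h : g ∣ X ^ p - C (RatFunc.X ^ q)) :
    ∃ b c : ℕ, 0 < b ∧ b ≤ Fintype.card k ^ g.natDegree * g.natDegree ∧
      g ∣ X ^ b - C (RatFunc.X ^ c) := by
  classical
  let ψ : k[X] →+* RatFunc k := (algebraMap k[X] (RatFunc k)).comp (expand k p).toRingHom
  have hψ : Function.Injective ψ := (IsFractionRing.injective _ _).comp (expand_injective hp)
  let φ : RatFunc k →+* RatFunc k := IsFractionRing.lift hψ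
  have hφ : ∀ a : k[X], φ (algebraMap _ _ a) = algebraMap _ _ (expand k p a) := fun a =>
    IsFractionRing.lift_algebraMap hψ a
  have hφX : φ RatFunc.X = RatFunc.X ^ p := by
    rw [← RatFunc.algebraMap_X, hφ]; simp
  have hφC : ∀ c : k, φ (algebraMap k _ c) = algebraMap k _ c := by
    intro c
    have := hφ (C c)
    simpa using this
  set e := g.natDegree with hedef
  set u : RatFunc k := RatFunc.X ^ q with hu
  have hu0 : u ≠ 0 := pow_ne_zero _ RatFunc.X_ne_zero
  have hG : g.map φ ∣ X ^ p - C (u ^ p) := by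
    have := Polynomial.map_dvd φ h
    simpa [hu, hφX, ← pow_mul, mul_comm] using this
  have hGm : (g.map φ).Monic := hg.map φ
  have hGd : (g.map φ).natDegree = e := hg.natDegree_map φ
  set G1 := (g.map φ).comp (C u * X) with hG1
  have hl : (C u * X : (RatFunc k)[X]).natDegree = 1 := natDegree_C_mul_X u hu0
  have h1d : G1.natDegree = e := by rw [hG1, natDegree_comp, hl, hGd, mul_one]
  have h1l : G1.leadingCoeff = u ^ e := by
    rw [hG1, leadingCoeff_comp (by rw [hl]; norm_num), hGm.leadingCoeff, hGd, leadingCoeff_C_mul_X,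
      one_mul]
  set G2 := C (u ^ e)⁻¹ * G1 with hG2
  have hue : u ^ e ≠ 0 := pow_ne_zero _ hu0
  have h2m : G2.Monic := by
    rw [Monic, hG2, leadingCoeff_mul, leadingCoeff_C, h1l, inv_mul_cancel₀ hue]
  have h2d : G2.natDegree = e := by rw [hG2, natDegree_C_mul (inv_ne_zero hue), h1d]
  have h21 : G1 = C (u ^ e) * G2 := by
    rw [hG2, ← mul_assoc, ← C_mul, mul_inv_cancel₀ hue, C_1, one_mul]
  have h1 : G1 ∣ C (u ^ p) * (X ^ p - 1) := by
    have := map_dvd (compRingHom (C u * X)) hG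
    simpa [mul_pow, mul_sub] using this
  have h2 : G2 ∣ X ^ p - 1 := by
    have h3 : G2 ∣ G1 := ⟨C (u ^ e), by rw [mul_comm]; exact h21⟩
    exact (isUnit_C.2 (pow_ne_zero p hu0).isUnit).dvd_mul_left.1 (h3.trans h1)
  obtain ⟨G0, h0, h0d, h0m⟩ := desc G2 h2m hp h2
  have h0p : G0 ∣ X ^ p - 1 := by
    rw [← map_dvd_map' (algebraMap k (RatFunc k)), h0]; simpa using h2
  obtain ⟨m, hm, hmle, hmd⟩ := fin_ord G0 h0m hp h0p
  have hc0 : G0.coeff 0 ≠ 0 := by
    intro hc
    have := (X_dvd_iff.2 hc).trans h0p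
    rw [X_dvd_iff] at this
    simp [coeff_X_pow, hp.ne] at this
  have hco : φ (g.coeff 0) = u ^ e * algebraMap k _ (G0.coeff 0) := by
    have h4 : G1.coeff 0 = φ (g.coeff 0) := by
      rw [hG1, coeff_zero_eq_eval_zero, eval_comp]; simp [← coeff_zero_eq_eval_zero]
    rw [← h4, h21, coeff_C_mul, ← h0, coeff_map]
  set a := g.coeff 0 / algebraMap k _ (G0.coeff 0) with ha
  have hc1 : algebraMap k (RatFunc k) (G0.coeff 0) ≠ 0 := by simpa using hc0
  have hφa : φ a = RatFunc.X ^ (q * e) := by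
    rw [ha, map_div₀, hco, hφC, mul_div_assoc, div_self hc1, mul_one, hu, pow_mul]
  have hdiv : p ∣ q * e := by
    have h5 : a * algebraMap _ _ a.denom = algebraMap _ _ a.num := by
      conv_lhs => enter [1]; rw [← RatFunc.num_div_denom a]
      exact div_mul_cancel₀ _ (RatFunc.algebraMap_ne_zero a.denom_ne_zero)
    have h6 := congrArg φ h5
    rw [map_mul, hφa, hφ, hφ, ← RatFunc.algebraMap_X, ← map_pow, ← map_mul] at h6
    have h7 := congrArg natDegree (IsFractionRing.injective k[X] (RatFunc k) h6)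
    have h8 : expand k p a.denom ≠ 0 := fun hh => a.denom_ne_zero (expand_injective hp (by simpa using hh))
    rw [natDegree_mul (pow_ne_zero _ X_ne_zero) h8, natDegree_expand, natDegree_expand,
      natDegree_X_pow] at h7
    exact (Nat.dvd_add_left (Dvd.intro_left _ rfl)).1 (h7 ▸ Dvd.intro_left _ rfl)
  obtain ⟨s, hs⟩ := hdiv
  refine ⟨m * e, s * m, Nat.mul_pos hm he, Nat.mul_le_mul_right _ (by rwa [h0d, h2d] at hmle), ?_⟩
  rw [← map_dvd_map' φ]
  have h9 : G2 ∣ X ^ (m * e) - 1 := by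
    have : G0 ∣ X ^ (m * e) - 1 := hmd.trans (by
      rw [pow_mul]; simpa using sub_dvd_pow_sub_pow (X ^ m : k[X]) 1 e)
    have := Polynomial.map_dvd (algebraMap k (RatFunc k)) this
    rw [h0] at this; simpa using this
  have h10 : G1 ∣ X ^ (m * e) - 1 := by
    rw [h21]; exact (isUnit_C.2 hue.isUnit).mul_left_dvd.2 h9
  have h11 := map_dvd (compRingHom (C u⁻¹ * X)) h10
  have h12 : G1.comp (C u⁻¹ * X) = g.map φ := by
    rw [hG1, comp_assoc]
    have : (C u * X : (RatFunc k)[X]).comp (C u⁻¹ * X) = X := by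
      simp only [mul_comp, C_comp, X_comp]
      rw [← mul_assoc, ← C_mul, mul_inv_cancel₀ hu0, C_1, one_mul]
    rw [this, comp_X]
  simp only [coe_compRingHom_apply, h12, sub_comp, pow_comp, X_comp, one_comp] at h11
  have h13 : (X ^ (m * e) - C (RatFunc.X ^ (s * m)) : (RatFunc k)[X]).map φ =
      C (u ^ (m * e)) * ((C u⁻¹ * X) ^ (m * e) - 1) := by
    have : φ (RatFunc.X ^ (s * m)) = u ^ (m * e) := by
      rw [map_pow, hφX, hu, ← pow_mul, ← pow_mul]; congr 1
      calc p * (s * m) = (p * s) * m := by ring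
        _ = q * (m * e) := by rw [← hs]; ring
    rw [Polynomial.map_sub, Polynomial.map_pow, map_X, map_C, this, mul_sub, mul_one, mul_pow,
      ← mul_assoc, ← C_pow, ← C_mul, ← mul_pow, mul_inv_cancel₀ hu0, one_pow, C_1, one_mul]
  rw [h13]
  exact h11.mul_left _

theorem clear {k : Type} [Field k] (Q f P : k[X][X]) (a b : (RatFunc k)[X])
    (h : Q.map (algebraMap _ (RatFunc k)) = a * f.map (algebraMap _ _) + b * P.map (algebraMap _ _)) :
    ∃ D : k[X], D ≠ 0 ∧ ∃ a' b' : k[X][X], C D * Q = a' * f + b' * P := by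
  obtain ⟨D, hD, h1⟩ := IsLocalization.integerNormalization_spec (nonZeroDivisors k[X]) a
  obtain ⟨E, hE, h2⟩ := IsLocalization.integerNormalization_spec (nonZeroDivisors k[X]) b
  refine ⟨D * E, mul_ne_zero (nonZeroDivisors.ne_zero hD) (nonZeroDivisors.ne_zero hE),
    C E * IsLocalization.integerNormalization (nonZeroDivisors k[X]) a,
    C D * IsLocalization.integerNormalization (nonZeroDivisors k[X]) b, ?_⟩
  apply map_injective (algebraMap _ (RatFunc k)) (IsFractionRing.injective _ _)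
  simp only [Polynomial.map_mul, Polynomial.map_add, map_C, h1, h2, h, map_mul,
    ← IsScalarTower.algebraMap_smul (RatFunc k) D, ← IsScalarTower.algebraMap_smul (RatFunc k) E,
    smul_eq_C_mul]
  ring

theorem modl {k M : Type} [Field k] [Fintype k] [AddCommGroup M] [Module k M]
    (s G : Module.End k M) (hc : ∀ a : k[X], Commute ((aeval s).toRingHom a) G) (S : Set M)
    (tf : ∀ D : k[X], D ≠ 0 → ∀ z ∈ S, aeval s D z = 0 → z = 0) (y : M) (hy : y ≠ 0)
    (hy' : y ∈ S) (hS : ∀ b c : ℕ, (G ^ b) y - (s ^ c) y ∈ S) {d p q : ℕ} (hp : 0 < p)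
    (hper : (G ^ p) y = (s ^ q) y) (f : k[X][X]) (hf : f ≠ 0) (hfd : f.natDegree ≤ d)
    (hfy : eval₂RingHom' (aeval s).toRingHom G hc f y = 0) :
    ∃ b c : ℕ, 0 < b ∧ b ≤ Fintype.card k ^ d * d ∧ (G ^ b) y = (s ^ c) y := by
  classical
  set ev := eval₂RingHom' (aeval s).toRingHom G hc with hev
  have evC : ∀ D, ev (C D) = aeval s D := fun D => by simp [hev, eval₂RingHom']
  have evX : ev X = G := by simp [hev, eval₂RingHom']
  have evQ : ∀ b c : ℕ, ev (X ^ b - C (X ^ c)) y = (G ^ b) y - (s ^ c) y := by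
    intro b c; rw [map_sub, map_pow, evX, evC]; simp
  set P : k[X][X] := X ^ p - C (X ^ q) with hP
  have hPy : ev P y = 0 := by rw [evQ, hper, sub_self]
  set f' := f.map (algebraMap _ (RatFunc k))
  set P' := P.map (algebraMap _ (RatFunc k))
  have hf' : f' ≠ 0 := (Polynomial.map_ne_zero_iff (IsFractionRing.injective _ _)).2 hf
  have key : ∀ Q : k[X][X], gcd f' P' ∣ Q.map (algebraMap _ (RatFunc k)) → ev Q y ∈ S →
      ev Q y = 0 := by
    rintro Q ⟨t, ht⟩ hQ
    obtain ⟨a, b, hab⟩ := exists_gcd_eq_mul_add_mul f' P'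
    obtain ⟨D, hD, a', b', h⟩ := clear Q f P (a * t) (b * t) (by rw [ht, hab]; ring)
    refine tf D hD _ hQ ?_
    have := congrArg (fun z => ev z y) h
    simp only [map_mul, map_add, evC, Module.End.mul_apply, LinearMap.add_apply, hfy, hPy,
      map_zero, add_zero] at this
    exact this
  have hg0 : gcd f' P' ≠ 0 := fun h => hf' ((gcd_eq_zero_iff _ _).1 h).1
  have hgm : (gcd f' P').Monic := by rw [← normalize_gcd]; exact monic_normalize hg0
  have hgd : (gcd f' P').natDegree ≤ d :=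
    (natDegree_le_of_dvd (gcd_dvd_left _ _) hf').trans (natDegree_map_le.trans hfd)
  have he : 0 < (gcd f' P').natDegree := by
    rcases Nat.eq_zero_or_pos (gcd f' P').natDegree with h | h
    · exfalso
      have h1 := hgm.natDegree_eq_zero.1 h
      apply hy
      simpa using key 1 (by rw [h1]; simp) (by simpa using hy')
    · exact h
  obtain ⟨b, c, hb, hbl, hd⟩ := alg (q := q) hp _ hgm he
    ((gcd_dvd_right _ _).trans (by simp [P', hP]))
  refine ⟨b, c, hb, hbl.trans (Nat.mul_le_mul (Nat.pow_le_pow_right Fintype.card_pos hgd) hgd), ?_⟩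
  have := key (X ^ b - C (X ^ c)) (by simpa using hd) (by rw [evQ]; exact hS b c)
  rwa [evQ, sub_eq_zero] at this

end Pool.Agent.H.MP_5c31ca_lc
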