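import Mathlib
import Pool.Agent.H.MP_5c31ca_lc.A

namespace Pool.Agent.H.MP_5c31ca_lc
open Polynomial

section
variable {A : Type} [AddCommGroup A] {r : ℕ}

def ca (h : Fin (2 * r + 1) → A →+ A) (x : ℤ → A) : ℤ → A :=
  fun i => ∑ j, h j (x (i + (j : ℕ) - r))
def gg (h : Fin (2 * r + 1) → A →+ A) : (ℤ → A) →+ (ℤ → A) where
  toFun x := fun i => ∑ j, h j (x (i + (j : ℕ) - 2 * r))
  map_zero' := by funext i; simp
  map_add' x y := by funext i; simp [Finset.sum_add_distrib]
def sh (c : ℤ) (x : ℤ → A) : ℤ → A := fun i => x (i - c)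
def Sup (w : ℕ) (x : ℤ → A) : Prop := ∀ i, x i ≠ 0 → 0 ≤ i ∧ i < w
def Sol {A : Type} (F : (ℤ → A) → (ℤ → A)) : Prop :=
  ∃ x y : ℤ → A, x ≠ y ∧ {i | x i ≠ y i}.Finite ∧
    ∃ D : ℕ, ∀ (t : ℕ) (i j : ℤ), F^[t] x i ≠ F^[t] y i → F^[t] x j ≠ F^[t] y j → |i - j| ≤ D

theorem gg_apply (h : Fin (2 * r + 1) → A →+ A) (x : ℤ → A) (i : ℤ) :
    gg h x i = ∑ j, h j (x (i + (j : ℕ) - 2 * r)) := rfl

theorem loc (h : Fin (2 * r + 1) → A →+ A) (b : ℕ) : ∀ (x x' : ℤ → A) (i i' : ℤ),
    (∀ j : ℕ, j ≤ 2 * r * b → x (i - j) = x' (i' - j)) → (gg h)^[b] x i = (gg h)^[b] x' i' := by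
  induction b with
  | zero => intro x x' i i' H; simpa using H 0 (by simp)
  | succ b ih =>
    intro x x' i i' H
    rw [Function.iterate_succ_apply', Function.iterate_succ_apply', gg_apply, gg_apply]
    refine Finset.sum_congr rfl fun j _ => congrArg _ (ih _ _ _ _ fun k hk => ?_)
    have hj := j.2
    have := H (k + (2 * r - j)) (by rw [mul_add]; omega)
    rw [Nat.cast_add, Nat.cast_sub (by omega)] at this
    push_cast at this
    convert this using 2 <;> ring

theorem gg_sh (h : Fin (2 * r + 1) → A →+ A) (b : ℕ) (c : ℤ) (x : ℤ → A) :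
    (gg h)^[b] (sh c x) = sh c ((gg h)^[b] x) := by
  funext i
  refine loc h b _ _ _ _ fun j _ => ?_
  simp only [sh]; congr 1; ring

theorem ca_gg (h : Fin (2 * r + 1) → A →+ A) (t : ℕ) (x : ℤ → A) (i : ℤ) :
    (ca h)^[t] x i = (gg h)^[t] x (i + r * t) := by
  induction t generalizing i with
  | zero => simp
  | succ t ih =>
    rw [Function.iterate_succ_apply', Function.iterate_succ_apply', gg_apply, ca]
    refine Finset.sum_congr rfl fun j _ => congrArg _ ?_
    rw [ih]; congr 1; push_cast; ring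

theorem Sup.it (h : Fin (2 * r + 1) → A →+ A) {w : ℕ} {x : ℤ → A} (hx : Sup w x) (b : ℕ) :
    Sup (w + 2 * r * b) ((gg h)^[b] x) := by
  intro i hi
  by_contra hc
  apply hi
  rw [loc h b x 0 i i, iterate_map_zero]; · rfl
  intro j hj
  by_contra h0
  have := hx _ h0
  have hj' : (j : ℤ) ≤ (2 * r * b : ℕ) := by exact_mod_cast hj
  rw [Nat.cast_add] at hc
  omega

theorem sh_ne {c : ℤ} {x : ℤ → A} (hx : x ≠ 0) : sh c x ≠ 0 := by
  intro h; apply hx; funext i
  simpa [sh] using congrFun h (i + c)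

theorem sh_sh (c d : ℤ) (x : ℤ → A) : sh c (sh d x) = sh (c + d) x := by
  funext i; simp only [sh]; congr 1; ring

def Per (h : Fin (2 * r + 1) → A →+ A) (N : Set ℕ) (y : ℤ → A) : Prop :=
  gg h y = 0 ∨ ∃ b ∈ N, ∃ c : ℕ, 0 < b ∧ (gg h)^[b] y = sh c y

theorem sol_of_per (h : Fin (2 * r + 1) → A →+ A) {N : Set ℕ} {w : ℕ} {y : ℤ → A} (hy : y ≠ 0)
    (hs : Sup w y) (hp : Per h N y) : Sol (ca h) := by
  have h0 : ∀ t i, (ca h)^[t] 0 i = 0 := fun t i => by rw [ca_gg, iterate_map_zero]; rfl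
  refine ⟨y, 0, hy, (Set.finite_Ico (0 : ℤ) w).subset fun i hi => hs i hi, ?_⟩
  rcases hp with hp | ⟨b, -, c, hb, hp⟩
  · refine ⟨w, fun t i j hi hj => ?_⟩
    rw [h0, ca_gg] at hi hj
    cases t with
    | zero =>
      have := hs _ hi; have := hs _ hj
      rw [abs_le]; simp at *; omega
    | succ t => rw [Function.iterate_succ_apply, hp, iterate_map_zero] at hi; exact absurd rfl hi
  · refine ⟨w + 2 * r * b, fun t i j hi hj => ?_⟩
    rw [h0, ca_gg] at hi hj
    have key : ∀ a : ℕ, (gg h)^[b * a] y = sh (c * a) y := by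
      intro a
      induction a with
      | zero => funext i; simp [sh]
      | succ a ih =>
        rw [Nat.mul_succ, add_comm, Function.iterate_add_apply, ih, gg_sh, hp, sh_sh]
        congr 1
    have e : (gg h)^[t] y = sh (c * (t / b : ℕ)) ((gg h)^[t % b] y) := by
      conv_lhs => rw [← Nat.mod_add_div t b, Function.iterate_add_apply, key, gg_sh]
    rw [e] at hi hj
    have h1 := hs.it h _ _ hi
    have h2 := hs.it h _ _ hj
    have h3 : 2 * r * (t % b) ≤ 2 * r * b := Nat.mul_le_mul_left _ (Nat.mod_lt _ hb).le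
    have h4 : ((w + 2 * r * (t % b) : ℕ) : ℤ) ≤ (w + 2 * r * b : ℕ) := by exact_mod_cast by omega
    rw [abs_le]; omega

theorem per_of_sol [Finite A] (h : Fin (2 * r + 1) → A →+ A) (H : Sol (ca h)) :
    ∃ w y, y ≠ 0 ∧ Sup w y ∧ Per h Set.univ y := by
  classical
  obtain ⟨x, y, hxy, hf, D, hD⟩ := H
  obtain ⟨z, hz0, w, hz, hD'⟩ : ∃ z : ℤ → A, z ≠ 0 ∧ ∃ w, Sup w z ∧ ∀ (t : ℕ) (i j : ℤ),
      (gg h)^[t] z i ≠ 0 → (gg h)^[t] z j ≠ 0 → |i - j| ≤ D := by
    obtain ⟨m, hm⟩ := hf.bddBelow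
    obtain ⟨M, hM⟩ := hf.bddAbove
    refine ⟨sh (-m) (x - y), sh_ne (sub_ne_zero.2 hxy), (M - m + 1).toNat, ?_, ?_⟩
    · intro i hi
      have h1 : x (i - -m) ≠ y (i - -m) := sub_ne_zero.1 hi
      have := hm h1; have := hM h1
      omega
    · intro t i j hi hj
      rw [gg_sh, iterate_map_sub] at hi hj
      have := hD t (i + m - r * t) (j + m - r * t)
        (by rw [ca_gg, ca_gg]; convert sub_ne_zero.1 hi using 2 <;> ring)
        (by rw [ca_gg, ca_gg]; convert sub_ne_zero.1 hj using 2 <;> ring)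
      convert this using 2; ring
  by_cases hn : ∃ t, (gg h)^[t] z = 0
  · have h1 := Nat.find_spec hn
    have h2 : Nat.find hn ≠ 0 := fun h0 => hz0 (by rwa [h0] at h1)
    obtain ⟨t, ht⟩ := Nat.exists_eq_succ_of_ne_zero h2
    refine ⟨_, _, Nat.find_min hn (by omega : t < Nat.find hn), hz.it h t, Or.inl ?_⟩
    rwa [ht, Function.iterate_succ_apply'] at h1
  · push Not at hn
    have hex : ∀ t, ∃ m : ℕ, (gg h)^[t] z m ≠ 0 := by
      intro t
      obtain ⟨i, hi⟩ := Function.ne_iff.1 (hn t)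
      have := (hz.it h t i hi).1
      exact ⟨i.toNat, by rwa [Int.toNat_of_nonneg this]⟩
    let m : ℕ → ℕ := fun t => Nat.find (hex t)
    have hm1 : ∀ t, (gg h)^[t] z (m t) ≠ 0 := fun t => Nat.find_spec (hex t)
    have hm2 : ∀ t, Sup (D + 1) (sh (-m t) ((gg h)^[t] z)) := by
      intro t i hi
      have h1 := hD' t _ _ hi (hm1 t)
      have h2 := (hz.it h t _ hi).1
      have h3 : m t ≤ (i - -m t).toNat := Nat.find_min' (hex t) (by rwa [Int.toNat_of_nonneg h2])
      rw [abs_le] at h1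
      omega
    obtain ⟨t, t', hne, he⟩ := Finite.exists_ne_map_eq_of_infinite
      (fun t : ℕ => fun i : Fin (D + 1) => sh (-m t) ((gg h)^[t] z) (i : ℕ))
    wlog hlt : t < t' generalizing t t'
    · exact this t' t hne.symm he.symm (by omega)
    have he' : sh (-m t) ((gg h)^[t] z) = sh (-m t') ((gg h)^[t'] z) := by
      funext i
      by_cases hi : 0 ≤ i ∧ i < (D + 1 : ℕ)
      · have := congrFun he ⟨i.toNat, by omega⟩
        simpa [Int.toNat_of_nonneg hi.1] using this
      · rw [by_contra fun hc => hi (hm2 t i hc), by_contra fun hc => hi (hm2 t' i hc)]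
    have h5 : (gg h)^[t' - t] (sh (-m t) ((gg h)^[t] z)) =
        sh (m t' - m t) (sh (-m t) ((gg h)^[t] z)) := by
      conv_rhs => rw [he']
      rw [gg_sh, ← Function.iterate_add_apply, Nat.sub_add_cancel hlt.le, sh_sh]
      congr 1; ring
    have h6 : (0 : ℤ) ≤ m t' - m t := by
      refine (((hm2 t).it h (t' - t)) _ ?_).1
      rw [h5]
      simpa [sh] using hm1 t
    refine ⟨_, _, sh_ne (hn t), hm2 t, Or.inr ⟨t' - t, trivial, (m t' - m t : ℤ).toNat, by omega, ?_⟩⟩
    rw [Int.toNat_of_nonneg h6, h5]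

theorem cut [Fintype A] (Φ : (ℤ → A) → ℤ → A) (R : ℕ)
    (hl : ∀ x x' i i', (∀ j : ℕ, j ≤ R → x (i - j) = x' (i' - j)) → Φ x i = Φ x' i')
    (w : ℕ) : ∀ x : ℤ → A, x ≠ 0 → Sup w x → Φ x = 0 →
      ∃ y, y ≠ 0 ∧ Sup (Fintype.card A ^ R + 1) y ∧ Φ y = 0 := by
  induction w with
  | zero =>
    intro x hx hs _
    obtain ⟨i, hi⟩ := Function.ne_iff.1 hx
    have := hs i hi; omega
  | succ w ih =>
    intro x hx hs hΦ
    by_cases hw : w + 1 ≤ Fintype.card A ^ R + 1
    · refine ⟨x, hx, fun i hi => ?_, hΦ⟩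
      have := hs i hi; omega
    by_cases h0 : x 0 = 0
    · refine ih (sh (-1) x) (sh_ne hx) (fun i hi => ?_) ?_
      · have := hs _ hi
        have : i - -1 ≠ 0 := fun h => hi (by simp only [sh, h, h0])
        omega
      · funext i
        rw [hl _ x i (i + 1) fun j _ => by simp only [sh]; congr 1; ring, hΦ]; rfl
    obtain ⟨a, a', hne, he⟩ := Fintype.exists_ne_map_eq_of_card_lt
      (fun (i : Fin (Fintype.card A ^ R + 1)) => fun j : Fin R => x ((i : ℕ) - (j : ℕ))) (by simp)
    wlog hlt : a < a' generalizing a a'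
    · exact this a' a hne.symm he.symm (lt_of_le_of_ne (not_lt.1 hlt) hne.symm)
    have hlt' : (a : ℕ) < a' := hlt
    have ha' := a'.2
    refine ih (fun k => if k ≤ (a : ℕ) then x k else x (k + (a' : ℕ) - (a : ℕ))) ?_ ?_ ?_
    · intro hc
      have := congrFun hc 0
      simp [h0] at this
    · intro i hi
      simp only at hi
      split_ifs at hi with h1
      · have := hs _ hi; omega
      · have := hs _ hi; omega
    · funext k
      by_cases hk : k ≤ (a : ℕ)
      · rw [hl _ x k k fun j _ => if_pos (by omega), hΦ]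
      · rw [hl _ x k (k + (a' : ℕ) - (a : ℕ)) fun j hj => ?_, hΦ]; · rfl
        split_ifs with h1
        · have := congrFun he ⟨((a : ℕ) - (k - j)).toNat, by omega⟩
          simp only at this
          rw [Int.toNat_of_nonneg (by omega)] at this
          convert this using 2 <;> ring
        · congr 1; ring
end

section
variable {k B : Type} [Field k] [AddCommGroup B] [Module k B] {r : ℕ}

def sL (k B : Type) [Field k] [AddCommGroup B] [Module k B] : Module.End k (ℤ → B) where
  toFun := sh 1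
  map_add' _ _ := rfl
  map_smul' _ _ := rfl

theorem sL_pow (c : ℕ) (x : ℤ → B) : (sL k B ^ c) x = sh c x := by
  induction c with
  | zero => funext i; simp [sh]
  | succ c ih =>
    rw [pow_succ', Module.End.mul_apply, ih]
    change sh 1 (sh c x) = _
    rw [sh_sh]; congr 1; push_cast; ring

theorem aeval_sL (D : k[X]) (x : ℤ → B) (i : ℤ) :
    aeval (sL k B) D x i = ∑ c ∈ Finset.range (D.natDegree + 1), D.coeff c • x (i - c) := by
  rw [aeval_eq_sum_range, LinearMap.sum_apply, Finset.sum_apply]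
  refine Finset.sum_congr rfl fun c _ => ?_
  rw [LinearMap.smul_apply, sL_pow]; rfl

theorem tfree (D : k[X]) (hD : D ≠ 0) (z : ℤ → B) (hz : ∃ w, Sup w z)
    (h : aeval (sL k B) D z = 0) : z = 0 := by
  obtain ⟨w, hw⟩ := hz
  induction w with
  | zero =>
    funext i
    by_contra hi
    have := hw i hi; omega
  | succ w ih =>
    refine ih fun i hi => ?_
    have h1 := hw i hi
    refine ⟨h1.1, ?_⟩
    by_contra h2
    have h3 : i = w := by omega
    have h4 := congrFun h (i + D.natDegree)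
    rw [aeval_sL, Finset.sum_range_succ, Finset.sum_eq_zero, zero_add, add_sub_cancel_right] at h4
    · rcases smul_eq_zero.1 h4 with h5 | h5
      · exact hD (leadingCoeff_eq_zero.1 h5)
      · exact hi h5
    · intro c hc
      have := Finset.mem_range.1 hc
      have h6 : z (i + D.natDegree - c) = 0 := by_contra fun h5 => by
        have := hw (i + D.natDegree - c) h5; omega
      rw [h6, smul_zero]

theorem bnd [Fintype k] [Module.Finite k B] (h : Fin (2 * r + 1) → B →+ B)
    (hk : ∀ j (c : k) x, h j (c • x) = c • h j x) {w : ℕ} {y : ℤ → B} (hy : y ≠ 0) (hs : Sup w y)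
    {p q : ℕ} (hp : 0 < p) (hper : (gg h)^[p] y = sh q y) :
    ∃ b c : ℕ, 0 < b ∧ b ≤ Fintype.card k ^ Module.finrank k B * Module.finrank k B ∧
      (gg h)^[b] y = sh c y := by
  classical
  let G : Module.End k (ℤ → B) :=
    { toFun := gg h, map_add' := map_add _
      map_smul' := fun c x => by funext i; simp [gg_apply, hk, Finset.smul_sum] }
  have hG : ∀ b x, (G ^ b) x = (gg h)^[b] x := fun b x => by rw [Module.End.pow_apply]; rfl
  have hc0 : Commute (sL k B) G := by
    refine LinearMap.ext fun x => ?_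
    exact (gg_sh h 1 1 x).symm
  have hc : ∀ a : k[X], Commute ((aeval (sL k B)).toRingHom a) G := by
    intro a
    change Commute (aeval (sL k B) a) G
    rw [aeval_eq_sum_range]
    exact Commute.sum_left _ _ _ fun c _ => (hc0.pow_left c).smul_left _
  set d := Module.finrank k B with hd
  set C0 := w + 2 * r * d with hC0
  set N := d * C0 + 1 with hN
  let v : Fin (d + 1) × Fin N → ℤ → B := fun a => sh (a.2 : ℕ) ((gg h)^[a.1] y)
  have hv : ∀ a, Sup (N + C0) (v a) := by
    intro a i hi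
    have h1 := hs.it h _ _ hi
    have h2 : 2 * r * a.1 ≤ 2 * r * d := Nat.mul_le_mul_left _ (Nat.lt_succ_iff.1 a.1.2)
    have h3 := a.2.2
    have h4 : ((w + 2 * r * a.1 : ℕ) : ℤ) ≤ C0 := by exact_mod_cast by omega
    omega
  have hli : ¬ LinearIndependent k fun a => fun i : Fin (N + C0) => v a (i : ℕ) := by
    intro hli
    have := hli.fintype_card_le_finrank
    rw [Module.finrank_pi_fintype] at this
    simp only [Fintype.card_prod, Fintype.card_fin, Finset.sum_const, Finset.card_univ,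
      smul_eq_mul, ← hd] at this
    nlinarith
  obtain ⟨g, hg, a0, ha0⟩ := Fintype.not_linearIndependent_iff.1 hli
  have hg' : ∑ a, g a • v a = 0 := by
    funext i
    by_cases hi : 0 ≤ i ∧ i < (N + C0 : ℕ)
    · have := congrFun hg ⟨i.toNat, by omega⟩
      simpa [Int.toNat_of_nonneg hi.1] using this
    · rw [Finset.sum_apply]
      refine Finset.sum_eq_zero fun a _ => ?_
      rw [Pi.smul_apply, by_contra fun hc => hi (hv a i hc), smul_zero]
  let f : k[X][X] := ∑ a : Fin (d + 1) × Fin N, monomial a.1 (monomial a.2 (g a))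
  have hf : f ≠ 0 := by
    intro h0
    have : (f.coeff a0.1).coeff a0.2 = g a0 := by
      simp only [f, finsetSum_coeff]
      rw [Finset.sum_eq_single a0]
      · simp
      · intro a _ ha
        rw [coeff_monomial]
        split_ifs with h1
        · rw [coeff_monomial, if_neg]
          intro h2
          exact ha (Prod.ext (Fin.ext h1) (Fin.ext h2))
        · simp
      · simp
    rw [h0] at this
    exact ha0 (by simpa using this.symm)
  have hfd : f.natDegree ≤ d :=
    natDegree_sum_le_of_forall_le _ _ fun a _ =>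
      (natDegree_monomial_le _).trans (Nat.lt_succ_iff.1 a.1.2)
  obtain ⟨b, c, h1, h2, h3⟩ := modl (sL k B) G hc {z | ∃ w, Sup w z} tfree y hy ⟨w, hs⟩
    (fun b c => ⟨w + 2 * r * b + c, fun i hi => by
      rw [hG, sL_pow] at hi
      by_cases h1 : (gg h)^[b] y i = 0
      · have h2 : y (i - c) ≠ 0 := fun h2 => hi (by simp [sh, h1, h2])
        have := hs _ h2
        push_cast; have : (0 : ℤ) ≤ 2 * r * b := by positivity
        omega
      · have := hs.it h b i h1
        rw [Nat.cast_add]; omega⟩) (d := d) (q := q) hp (by rw [hG, sL_pow, hper]) f hf hfd (by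
      rw [← hg', map_sum, LinearMap.sum_apply]
      refine Finset.sum_congr rfl fun a _ => ?_
      simp [eval₂RingHom', aeval_monomial, hG, sL_pow, v])
  exact ⟨b, c, h1, h2, by rw [← hG, h3, sL_pow]⟩
end

theorem bnd2 {A : Type} [AddCommGroup A] [Fintype A] {r : ℕ} (h : Fin (2 * r + 1) → A →+ A)
    {w : ℕ} {y : ℤ → A} (hy : y ≠ 0) (hs : Sup w y) (hp : Per h Set.univ y) :
    ∃ y', y' ≠ 0 ∧ Sup w y' ∧ Per h {b | b ≤ Fintype.card A * Fintype.card A} y' := by
  classical
  rcases hp with hp | ⟨p, -, q, hp, hper⟩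
  · exact ⟨y, hy, hs, Or.inl hp⟩
  have hfin : IsOfFinAddOrder y := isOfFinAddOrder_iff_nsmul_eq_zero.2
    ⟨Fintype.card A, Fintype.card_pos, by funext i; simp [card_nsmul_eq_zero]⟩
  have hm1 : addOrderOf y ≠ 1 := by simpa using hy
  obtain ⟨l, hl, m, hm⟩ := Nat.exists_prime_and_dvd hm1
  have hm0 : 0 < m := Nat.pos_of_mul_pos_left (hm ▸ hfin.addOrderOf_pos)
  have hy1 : m • y ≠ 0 := nsmul_ne_zero_of_lt_addOrderOf hm0.ne' (by
    rw [hm]; have := hl.two_le; nlinarith)
  have hy2 : l • m • y = 0 := by rw [← mul_nsmul', ← hm, addOrderOf_nsmul_eq_zero]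
  let B : AddSubgroup A := (nsmulAddMonoidHom l).ker
  have hB : ∀ a, a ∈ B ↔ l • a = 0 := fun a => Iff.rfl
  have : Fact l.Prime := ⟨hl⟩
  let _i : Module (ZMod l) B := AddCommGroup.zmodModule fun x => Subtype.ext ((hB _).1 x.2)
  let h' : Fin (2 * r + 1) → B →+ B := fun j =>
    ((h j).comp B.subtype).codRestrict B fun x => (hB _).2 (by
      rw [← map_nsmul]
      change h j (l • x.1) = 0
      rw [(hB _).1 x.2, map_zero])
  have hco : ∀ b (x : ℤ → B), (fun i => ((gg h')^[b] x i : A)) = (gg h)^[b] fun i => (x i : A) := by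
    intro b x
    induction b with
    | zero => rfl
    | succ b ih =>
      rw [Function.iterate_succ_apply', Function.iterate_succ_apply', ← ih]
      funext i
      simp [gg_apply, h']
  let z : ℤ → B := fun i => ⟨(m • y) i, (hB _).2 (congrFun hy2 i)⟩
  have hz : (fun i => (z i : A)) = m • y := rfl
  have hs1 : Sup w (m • y) := fun i hi => hs i fun h0 => hi (by simp [h0])
  have hfi : Module.Finite (ZMod l) B := Module.Finite.of_finite
  obtain ⟨b, c, h1, h2, h3⟩ := @bnd (ZMod l) B _ _ _i r _ hfi h' (fun j c x => ZMod.map_smul _ c x) w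
    z (fun h0 => hy1 (by rw [← hz, h0]; rfl))
    (fun i hi => hs1 i fun h0 => hi (Subtype.ext h0)) p q hp (by
      funext i
      apply Subtype.ext
      rw [congrFun (hco p z) i, hz, iterate_map_nsmul, hper]; rfl)
  refine ⟨m • y, hy1, hs1, Or.inr ⟨b, ?_, c, h1, ?_⟩⟩
  · have h4 : Fintype.card B = Fintype.card (ZMod l) ^ Module.finrank (ZMod l) B :=
      Module.card_eq_pow_finrank
    have h5 : Fintype.card B ≤ Fintype.card A := Fintype.card_subtype_le _
    have h6 : Module.finrank (ZMod l) B < Fintype.card (ZMod l) ^ Module.finrank (ZMod l) B :=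
      Nat.lt_pow_self Fintype.one_lt_card
    exact h2.trans (Nat.mul_le_mul (by omega) (by omega))
  · rw [← hz, ← hco, h3]; rfl

theorem sol_iff {A : Type} [AddCommGroup A] [Fintype A] {r : ℕ} (h : Fin (2 * r + 1) → A →+ A) :
    Sol (ca h) ↔ ∃ y, y ≠ 0 ∧
      Sup (Fintype.card A ^ (2 * r * (Fintype.card A * Fintype.card A)) + 1) y ∧
      (gg h y = 0 ∨ ∃ b ≤ Fintype.card A * Fintype.card A, ∃ c ≤ 2 * r * b,
        0 < b ∧ (gg h)^[b] y = sh (c : ℕ) y) := by
  constructor
  · intro H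
    obtain ⟨w, y, hy, hs, hp⟩ := per_of_sol h H
    obtain ⟨y, hy, hs, hp⟩ := bnd2 h hy hs hp
    have hn : 1 ≤ Fintype.card A := Fintype.card_pos
    rcases hp with hp | ⟨b, hb, c, hb0, hp⟩
    · obtain ⟨z, h1, h2, h3⟩ := cut (gg h) (2 * r * (Fintype.card A * Fintype.card A))
        (fun x x' i i' H => loc h 1 x x' i i' fun j hj => H j
          (hj.trans (Nat.mul_le_mul_left _ (Nat.mul_pos hn hn)))) w y hy hs hp
      exact ⟨z, h1, h2, Or.inl h3⟩
    · have hc : c ≤ 2 * r * b := by
        clear * - hy hs hp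
        induction w with
        | zero =>
          obtain ⟨i, hi⟩ := Function.ne_iff.1 hy
          have := hs i hi; omega
        | succ w ih =>
          by_cases h0 : y w = 0
          · refine ih fun i hi => ?_
            have := hs i hi
            have : i ≠ w := fun h1 => hi (h1 ▸ h0)
            omega
          · have := hs.it h b (w + c) (by rw [hp]; simpa [sh] using h0)
            have h2 : w + c < w + 1 + 2 * r * b := by exact_mod_cast this.2
            omega
      have hb' : 2 * r * b ≤ 2 * r * (Fintype.card A * Fintype.card A) := Nat.mul_le_mul_left _ hb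
      obtain ⟨z, h1, h2, h3⟩ := cut (fun x => (gg h)^[b] x - sh c x)
        (2 * r * (Fintype.card A * Fintype.card A))
        (fun x x' i i' H => by
          simp only [Pi.sub_apply, sh]
          rw [loc h b x x' i i' fun j hj => H j (hj.trans hb'), H c (hc.trans hb')])
        w y hy hs (sub_eq_zero.2 hp)
      exact ⟨z, h1, h2, Or.inr ⟨b, hb, c, hc, hb0, sub_eq_zero.1 h3⟩⟩
  · rintro ⟨y, hy, hs, hp | ⟨b, -, c, -, hb, hp⟩⟩
    · exact sol_of_per h (N := Set.univ) hy hs (Or.inl hp)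
    · exact sol_of_per h (N := Set.univ) hy hs (Or.inr ⟨b, trivial, c, hb, hp⟩)

end Pool.Agent.H.MP_5c31ca_lc
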