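import Mathlib
import Pool.Agent.Lib.helper21.PR
import Pool.Agent.H.MP_5c31ca_lc.B

namespace Pool.Agent.H.MP_5c31ca_lc
open List Pool.Agent.Lib.helper21.PR

abbrev Inp := ℕ × List (List ℕ) × List (List ℕ)

def step (a : Inp) (z : ℕ) (l : List ℕ) : List ℕ :=
  (range (l.length + 2 * a.1)).map fun i => (range (2 * a.1 + 1)).foldl
    (fun acc j => (a.2.1.getD acc []).getD ((a.2.2.getD j []).getD
      (if 2 * a.1 ≤ i + j then l.getD (i + j - 2 * a.1) z else z) 0) 0) z

def allL (n w : ℕ) : List (List ℕ) :=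
  (fun L : List (List ℕ) => L.flatMap fun l => (range n).map fun x => x :: l)^[w] [[]]

def itr (a : Inp) (z b : ℕ) (l : List ℕ) : List ℕ := (step a z)^[b] l

def D1 (a : Inp) (z : ℕ) (l : List ℕ) (b : ℕ) : Prop :=
  ∃ c ≤ 2 * a.1 * b, 0 < b ∧
    itr a z b l = replicate c z ++ l ++ replicate (2 * a.1 * b - c) z

def D2 (a : Inp) (z : ℕ) (l : List ℕ) : Prop :=
  (∃ x ∈ l, x ≠ z) ∧ ((∀ x ∈ step a z l, x = z) ∨
    ∃ b ≤ a.2.1.length * a.2.1.length, D1 a z l b)

def D3 (a : Inp) (z : ℕ) : Prop :=
  ∃ l ∈ allL a.2.1.length (a.2.1.length ^ (2 * a.1 * (a.2.1.length * a.2.1.length)) + 1), D2 a z l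

def Dec (a : Inp) : Prop :=
  ∃ z < a.2.1.length, (a.2.1.getD z []).getD z 0 = z ∧ D3 a z

section
variable {α : Type} [Primcodable α] {a : α → Inp} {z b n w : α → ℕ} {l : α → List ℕ}

@[fun_prop] theorem pr_step
    (ha : Primrec a) (hz : Primrec z) (hl : Primrec l) : Primrec fun x => step (a x) (z x) (l x) := by
  unfold step; fun_prop

@[fun_prop] theorem pr_allL
    (hn : Primrec n) (hw : Primrec w) : Primrec fun x => allL (n x) (w x) := by
  unfold allL; fun_prop

attribute [local irreducible] step allL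

@[fun_prop] theorem pr_itr (ha : Primrec a) (hz : Primrec z) (hb : Primrec b) (hl : Primrec l) :
    Primrec fun x => itr (a x) (z x) (b x) (l x) := by
  unfold itr; fun_prop

attribute [local irreducible] itr

@[fun_prop] theorem pr_D1 (ha : Primrec a) (hz : Primrec z) (hl : Primrec l) (hb : Primrec b) :
    Primrec fun x => cd (D1 (a x) (z x) (l x) (b x)) := by
  unfold D1; fun_prop

attribute [local irreducible] D1

@[fun_prop] theorem pr_D2 (ha : Primrec a) (hz : Primrec z) (hl : Primrec l) :
    Primrec fun x => cd (D2 (a x) (z x) (l x)) := by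
  unfold D2; fun_prop

attribute [local irreducible] D2

@[fun_prop] theorem pr_D3 (ha : Primrec a) (hz : Primrec z) :
    Primrec fun x => cd (D3 (a x) (z x)) := by
  unfold D3; fun_prop

attribute [local irreducible] D3

theorem pr_dec : PrimrecPred Dec := by
  unfold Dec; exact pred (by fun_prop)
end

theorem mem_allL (n w : ℕ) (l : List ℕ) : l ∈ allL n w ↔ l.length = w ∧ ∀ x ∈ l, x < n := by
  induction w generalizing l with
  | zero =>
    simp only [allL, Function.iterate_zero, id, mem_singleton, length_eq_zero_iff]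
    exact ⟨fun h => by simp [h], fun h => h.1⟩
  | succ w ih =>
    unfold allL at ih ⊢
    rw [Function.iterate_succ_apply']
    simp only [mem_flatMap, mem_map, mem_range, ih]
    constructor
    · rintro ⟨t, ⟨h1, h2⟩, x, hx, rfl⟩
      exact ⟨by simp [h1], by simpa [hx] using h2⟩
    · rintro ⟨h1, h2⟩
      cases l with
      | nil => simp at h1
      | cons x t =>
        exact ⟨t, ⟨by simpa using h1, fun y hy => h2 y (mem_cons_of_mem _ hy)⟩, x,
          h2 x mem_cons_self, rfl⟩

section
variable {A : Type} [AddCommGroup A] {n r : ℕ} (e : A ≃ Fin n) (h : Fin (2 * r + 1) → A →+ A)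

def inp : Inp := (r, List.ofFn fun a => List.ofFn fun b => (e (e.symm a + e.symm b)).val,
  List.ofFn fun j => List.ofFn fun a => (e (h j (e.symm a))).val)

def lst (y : ℤ → A) (w : ℕ) : List ℕ := (range w).map fun i : ℕ => (e (y i)).val

theorem tabl (x y : A) : ((inp e h).2.1.getD (e x).val []).getD (e y).val 0 = (e (x + y)).val := by
  simp [inp, getD_eq_getElem?_getD]

theorem homl (j : Fin (2 * r + 1)) (x : A) :
    ((inp e h).2.2.getD j.val []).getD (e x).val 0 = (e (h j x)).val := by
  have h1 : (inp e h).2.2.getD j.val [] = List.ofFn fun a => (e (h j (e.symm a))).val := by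
    rw [getD_eq_getElem _ _ (by simp only [inp, length_ofFn]; exact j.2)]
    simp only [inp, List.getElem_ofFn]
  rw [h1]
  simp [getD_eq_getElem?_getD]

theorem lst_getD {y : ℤ → A} {w : ℕ} (hs : Sup w y) (i : ℕ) :
    (lst e y w).getD i (e 0).val = (e (y i)).val := by
  by_cases hi : i < w
  · simp [lst, getD_eq_getElem?_getD, hi]
  · have : y i = 0 := by_contra fun hc => by have := hs _ hc; omega
    simp [lst, getD_eq_getElem?_getD, hi, this]

theorem step_lst {y : ℤ → A} {w : ℕ} (hs : Sup w y) :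
    step (inp e h) (e 0).val (lst e y w) = lst e (gg h y) (w + 2 * r) := by
  have hr : (inp e h).1 = r := rfl
  have hl : (lst e y w).length = w := by simp [lst]
  rw [step, hl, hr]
  conv_rhs => rw [lst]
  refine map_congr_left fun i _ => ?_
  let f : ℕ → A := fun j => if hj : j < 2 * r + 1 then h ⟨j, hj⟩ (y (i + j - 2 * r)) else 0
  have key : ∀ m ≤ 2 * r + 1, (range m).foldl
      (fun acc j => ((inp e h).2.1.getD acc []).getD (((inp e h).2.2.getD j []).getD
        (if 2 * r ≤ i + j then (lst e y w).getD (i + j - 2 * r) (e 0).val else (e 0).val) 0) 0)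
      (e 0).val = (e (∑ j ∈ Finset.range m, f j)).val := by
    intro m
    induction m with
    | zero => simp
    | succ m ih =>
      intro hm
      rw [range_succ, foldl_append, ih (by omega), Finset.sum_range_succ]
      have h1 : (if 2 * r ≤ i + m then (lst e y w).getD (i + m - 2 * r) (e 0).val else (e 0).val)
          = (e (y (i + m - 2 * r))).val := by
        split_ifs with h2
        · rw [lst_getD e hs]; congr 3; omega
        · have : y (i + m - 2 * r) = 0 := by_contra fun hc => by have := hs _ hc; omega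
          rw [this]
      simp only [foldl_cons, foldl_nil]
      rw [h1, homl e h ⟨m, hm⟩, tabl]
      simp only [f, dif_pos (show m < 2 * r + 1 from hm)]
  rw [key _ le_rfl, gg_apply, ← Fin.sum_univ_eq_sum_range f]
  congr 2
  refine Finset.sum_congr rfl fun j _ => ?_
  simp only [f, dif_pos j.2]

theorem iter_lst {y : ℤ → A} {w : ℕ} (hs : Sup w y) (b : ℕ) :
    (step (inp e h) (e 0).val)^[b] (lst e y w) = lst e ((gg h)^[b] y) (w + 2 * r * b) := by
  induction b with
  | zero => rfl
  | succ b ih =>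
    rw [Function.iterate_succ_apply', ih, step_lst e h (hs.it h b), Function.iterate_succ_apply']
    congr 1; ring

theorem lst_inj {x y : ℤ → A} {w : ℕ} (hx : Sup w x) (hy : Sup w y) (H : lst e x w = lst e y w) :
    x = y := by
  funext i
  by_cases hi : 0 ≤ i
  · have := lst_getD e hx i.toNat
    rw [H, lst_getD e hy, Int.toNat_of_nonneg hi] at this
    exact e.injective (Fin.ext this.symm)
  · rw [by_contra fun hc => hi (hx i hc).1, by_contra fun hc => hi (hy i hc).1]

theorem lst_zero {x : ℤ → A} {w : ℕ} (hx : Sup w x) :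
    (∀ a ∈ lst e x w, a = (e 0).val) ↔ x = 0 := by
  constructor
  · intro H
    funext i
    by_contra hc
    have h1 := hx i hc
    have := H (e (x i)).val (mem_map.2 ⟨i.toNat, mem_range.2 (by omega), by
      rw [Int.toNat_of_nonneg h1.1]⟩)
    exact hc (e.injective (Fin.ext this))
  · rintro rfl a ha
    obtain ⟨i, -, rfl⟩ := mem_map.1 ha
    rfl

theorem lst_sh {y : ℤ → A} {w : ℕ} (hs : Sup w y) (c d : ℕ) :
    replicate c (e 0).val ++ lst e y w ++ replicate d (e 0).val = lst e (sh c y) (c + w + d) := by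
  simp only [lst, range_add, map_append, map_map]
  congr 1
  · congr 1
    · symm
      rw [eq_replicate_iff]
      refine ⟨by simp, fun a ha => ?_⟩
      obtain ⟨i, hi, rfl⟩ := mem_map.1 ha
      have := mem_range.1 hi
      have h2 : y (i - c) = 0 := by_contra fun hc => by have := hs _ hc; omega
      simp only [sh, h2]
    · refine map_congr_left fun i _ => ?_
      simp [sh]
  · symm
    rw [eq_replicate_iff]
    refine ⟨by simp, fun a ha => ?_⟩
    obtain ⟨i, hi, rfl⟩ := mem_map.1 ha
    have h2 : y ((c + w + i : ℕ) - c) = 0 := by_contra fun hc => by have := hs _ hc; omega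
    simp only [Function.comp, sh, h2]

theorem ex_lst (l : List ℕ) (hl : ∀ x ∈ l, x < n) :
    ∃ y : ℤ → A, Sup l.length y ∧ l = lst e y l.length := by
  refine ⟨fun i => if hi : 0 ≤ i ∧ i.toNat < l.length then
    e.symm ⟨l[i.toNat]'hi.2, hl _ (getElem_mem _)⟩ else 0, fun i hi => ?_, ?_⟩
  · by_contra hc
    exact hi (dif_neg (by omega))
  · refine ext_getElem (by simp [lst]) fun i h1 h2 => ?_
    simp [lst, h1]

theorem dec_iff : Dec (inp e h) ↔ Sol (ca h) := by
  let _i : Fintype A := Fintype.ofEquiv _ e.symm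
  have hn : Fintype.card A = n := by rw [Fintype.card_congr e, Fintype.card_fin]
  have hr : (inp e h).1 = r := rfl
  have hl : (inp e h).2.1.length = n := by simp [inp]
  have hsup : ∀ {y : ℤ → A} {w : ℕ}, Sup w y → ∀ b c : ℕ, c ≤ 2 * r * b →
      ((step (inp e h) (e 0).val)^[b] (lst e y w) =
        replicate c (e 0).val ++ lst e y w ++ replicate (2 * r * b - c) (e 0).val ↔
        (gg h)^[b] y = sh c y) := by
    intro y w hs b c hc
    rw [iter_lst e h hs, lst_sh e hs, show c + w + (2 * r * b - c) = w + 2 * r * b by omega]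
    refine ⟨lst_inj e (hs.it h b) fun i hi => ?_, fun H => by rw [H]⟩
    have := hs _ hi
    rw [Nat.cast_add]; omega
  have hz1 : ∀ {y : ℤ → A} {w : ℕ}, Sup w y →
      ((∀ x ∈ step (inp e h) (e 0).val (lst e y w), x = (e 0).val) ↔ gg h y = 0) := by
    intro y w hs
    rw [step_lst e h hs]
    exact lst_zero e (by simpa using hs.it h 1)
  rw [sol_iff, hn]
  simp only [Dec, D3, D2, D1, itr, hl, hr]
  constructor
  · rintro ⟨z, hz, hzz, l, hl', hne, H⟩
    obtain ⟨x, rfl⟩ : ∃ x : A, z = (e x).val := ⟨e.symm ⟨z, hz⟩, by simp⟩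
    rw [tabl] at hzz
    have hx : x = 0 := by simpa using e.injective (Fin.ext hzz)
    subst hx
    obtain ⟨h1, h2⟩ := (mem_allL ..).1 hl'
    obtain ⟨y, hs, hy⟩ := ex_lst e l h2
    rw [h1] at hs hy
    subst hy
    refine ⟨y, fun h0 => ?_, hs, ?_⟩
    · obtain ⟨x, hx, hx'⟩ := hne
      exact hx' ((lst_zero e hs).2 h0 x hx)
    · rcases H with H | ⟨b, hb, c, hc, hb0, H⟩
      · exact Or.inl ((hz1 hs).1 H)
      · exact Or.inr ⟨b, hb, c, hc, hb0, (hsup hs b c hc).1 H⟩
  · rintro ⟨y, hy, hs, H⟩
    refine ⟨(e 0).val, (e 0).2, by rw [tabl, add_zero], lst e y (n ^ (2 * r * (n * n)) + 1),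
      (mem_allL ..).2 ⟨by simp [lst], fun x hx => ?_⟩, ?_, ?_⟩
    · obtain ⟨i, -, rfl⟩ := mem_map.1 hx
      exact Fin.is_lt _
    · by_contra hc
      push Not at hc
      exact hy ((lst_zero e hs).1 hc)
    · rcases H with H | ⟨b, hb, c, hc, hb0, H⟩
      · exact Or.inl ((hz1 hs).2 H)
      · exact Or.inr ⟨b, hb, c, hc, hb0, (hsup hs b c hc).2 H⟩
end

end Pool.Agent.H.MP_5c31ca_lc
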